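import Pool.Agent.Helper49.KX.St

/-!
# Project KR (MP_c973ff_an): finite sums satisfy the exchange condition in the crossed products of irrational rotations.
Definitions
-/

set_option autoImplicit false

namespace Pool.Agent.Helper49.KR

open Finset Filter Topology Module
open Pool.Agent.Helper49.KX

/-! ### the circle and its discrete copy -/

/-- the circle `ℝ/ℤ` -/
abbrev X0 : Type := AddCircle (1 : ℝ)

/-- the rotation `x ↦ θ + x` -/
noncomputable def rot (θ : ℝ) : X0 ≃ₜ X0 := Homeomorph.addLeft ((θ : ℝ) : X0)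

theorem rot_zpow (θ : ℝ) (n : ℤ) (x : X0) : (rot θ ^ n : X0 ≃ₜ X0) x = x + (((n : ℝ) * θ : ℝ) : X0) := by
  have h1 : ∀ x : X0, rot θ x = ((θ : ℝ) : X0) + x := fun _ => rfl
  have h2 : ∀ x : X0, (rot θ)⁻¹ x = x - ((θ : ℝ) : X0) := by
    intro x
    have h3 : (rot θ)⁻¹ (rot θ (x - ((θ : ℝ) : X0))) = x - ((θ : ℝ) : X0) :=
      (rot θ).symm_apply_apply _
    have h4 : rot θ (x - ((θ : ℝ) : X0)) = x := by
      rw [h1]
      abel
    rwa [h4] at h3
  induction n generalizing x with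
  | zero => simp
  | succ n ih =>
    rw [zpow_add_one]
    change (rot θ ^ (n : ℤ)) (rot θ x) = _
    rw [ih, h1]
    push_cast
    rw [add_mul, one_mul, AddCircle.coe_add]
    abel
  | pred n ih =>
    rw [zpow_sub_one]
    change (rot θ ^ (-(n : ℤ))) ((rot θ)⁻¹ x) = _
    rw [ih, h2]
    push_cast
    rw [sub_mul, one_mul, AddCircle.coe_sub]
    abel

/-- `X` with the discrete topology -/
def Dx (X : Type) : Type := X

instance (X : Type) : TopologicalSpace (Dx X) := ⊥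

instance (X : Type) : DiscreteTopology (Dx X) := ⟨rfl⟩

/-- the homeomorphism `h` on the discrete copy -/
def hD {X : Type} [TopologicalSpace X] (h : X ≃ₜ X) : Dx X ≃ₜ Dx X where
  toFun := fun x => h x
  invFun := fun x => h.symm x
  left_inv := fun x => h.symm_apply_apply x
  right_inv := fun x => h.apply_symm_apply x
  continuous_toFun := continuous_of_discreteTopology
  continuous_invFun := continuous_of_discreteTopology

/-- a continuous function as a function -/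
noncomputable def emb {X : Type} [TopologicalSpace X] (f : C(X, ℂ)) : C(Dx X, ℂ) :=
  ⟨fun x => f x, continuous_of_discreteTopology⟩

/-- a finite sum with continuous coefficients as a finite sum with arbitrary coefficients -/
noncomputable def embF {X : Type} [TopologicalSpace X] (g : FS X) : FS (Dx X) := g.mapRange emb (by ext; rfl)

/-! ### window matrices -/

/-- the window matrix of `g` at the base point `s`: the entry `(k, i)` is `g_(k-i)(s + k θ)` -/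
noncomputable def cw (θ : ℝ) (r : ℕ) (g : FS X0) (s : ℝ) : Matrix (Fin r) (Fin r) ℂ :=
  fun k i => g (((k : ℕ) : ℤ) - ((i : ℕ) : ℤ)) ((s + ((k : ℕ) : ℝ) * θ : ℝ) : X0)

/-- the vectors which vanish on `S` -/
def Zs (r : ℕ) (S : Finset (Fin r)) : Submodule ℂ (Fin r → ℂ) where
  carrier := {w | ∀ i ∈ S, w i = 0}
  add_mem' := by
    intro a b ha hb i hi
    rw [Pi.add_apply, ha i hi, hb i hi, add_zero]
  zero_mem' := fun _ _ => rfl
  smul_mem' := by
    intro c a ha i hi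
    rw [Pi.smul_apply, ha i hi, smul_zero]

/-- the image of `Zs r S` under the matrix `c` -/
noncomputable def im {r : ℕ} (c : Matrix (Fin r) (Fin r) ℂ) (S : Finset (Fin r)) : Submodule ℂ (Fin r → ℂ) :=
  (Zs r S).map (Matrix.mulVecLin c)

/-- the dimension of the image under the window matrix of `g` of the vectors which vanish at the boundary -/
noncomputable def rk (θ : ℝ) (r : ℕ) (g : FS X0) (N : ℕ) (s : ℝ) : ℕ := finrank ℂ (im (cw θ r g s) (SB r N))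

/-- the matrices whose columns of type 0, 1 vanish on `S` and whose columns of type 2 vanish on `S'` -/
def US (r : ℕ) (S S' : Finset (Fin r)) (κ : Fin r → Fin 4) : Submodule ℂ (Matrix (Fin r) (Fin r) ℂ) where
  carrier := {u | ∀ i l, ((κ l = 0 ∨ κ l = 1) → i ∈ S → u i l = 0) ∧ (κ l = 2 → i ∈ S' → u i l = 0)}
  add_mem' := by
    intro a b ha hb i l
    refine ⟨fun h1 h2 => ?_, fun h1 h2 => ?_⟩
    · rw [Matrix.add_apply, (ha i l).1 h1 h2, (hb i l).1 h1 h2, add_zero]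
    · rw [Matrix.add_apply, (ha i l).2 h1 h2, (hb i l).2 h1 h2, add_zero]
  zero_mem' := fun _ _ => ⟨fun _ _ => rfl, fun _ _ => rfl⟩
  smul_mem' := by
    intro c a ha i l
    refine ⟨fun h1 h2 => ?_, fun h1 h2 => ?_⟩
    · rw [Matrix.smul_apply, (ha i l).1 h1 h2, smul_zero]
    · rw [Matrix.smul_apply, (ha i l).2 h1 h2, smul_zero]

/-- `σ` is an involution which exchanges the columns of type 2 and 3 -/
structure IV (r : ℕ) (κ : Fin r → Fin 4) (σ : Equiv.Perm (Fin r)) : Prop where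
  inv : ∀ i, σ (σ i) = i
  fr : ∀ i, κ i = 2 → κ (σ i) = 3
  rf : ∀ i, κ i = 3 → κ (σ i) = 2

/-- `y = g (1 - g) s0` -/
noncomputable def yy (θ : ℝ) (g s0 : FS X0) : FS X0 := tw (rot θ) (tw (rot θ) g (un - g)) s0

/-- `s0` and `V` form a flexible element for `g`: `y = g (1 - g) s0` has the compression `1` to `V` -/
structure Flx (θ : ℝ) (g s0 : FS X0) (V : Set X0) : Prop where
  op : IsOpen V
  ne : V.Nonempty
  one : ∀ x ∈ V, yy θ g s0 0 x = 1
  zero : ∀ n : ℤ, n ≠ 0 → ∀ x ∈ V, (rot θ ^ (-n) : X0 ≃ₜ X0) x ∈ V → yy θ g s0 n x = 0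

/-- `g` has degree at most `N` -/
def Deg (g : FS X0) (N : ℕ) : Prop := ∀ m : ℤ, (N : ℤ) < |m| → g m = 0

/-! ### two towers over an interval of the circle -/

/-- `q1 θ = -δ1`, `q2 θ = δ2` modulo 1, and the first return times to `[-δ1, δ2)` are `q1` on `[0, δ2)` and `q2` on `[-δ1, 0)` -/
structure Rot (θ δ1 δ2 : ℝ) (q1 q2 : ℕ) : Prop where
  pos1 : 0 < δ1
  pos2 : 0 < δ2
  lt : δ1 + δ2 < 1
  e1 : ∃ n : ℤ, (q1 : ℝ) * θ = -δ1 + n
  e2 : ∃ n : ℤ, (q2 : ℝ) * θ = δ2 + n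
  ret1 : ∀ s : ℝ, 0 ≤ s → s < δ2 → ∀ k : ℕ, 0 < k → k < q1 → ∀ n : ℤ, ¬ (-δ1 ≤ s + k * θ + n ∧ s + k * θ + n < δ2)
  ret2 : ∀ s : ℝ, -δ1 ≤ s → s < 0 → ∀ k : ℕ, 0 < k → k < q2 → ∀ n : ℤ, ¬ (-δ1 ≤ s + k * θ + n ∧ s + k * θ + n < δ2)

/-- the representative of `x` in `[-δ1, 1 - δ1)` -/
noncomputable def rp (δ1 : ℝ) (x : X0) : ℝ := (AddCircle.equivIco (1 : ℝ) (-δ1) x : ℝ)

/-- the bases of the three towers, as subsets of `ℝ` -/
def bs (δ1 δ2 ε : ℝ) : Fin 3 → Set ℝ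
  | 0 => Set.Ico ε (δ2 - ε)
  | 1 => Set.Ico (-δ1 + ε) (-ε)
  | 2 => Set.Ico (-ε) ε

/-- the bases of the three towers -/
def Yb (δ1 δ2 ε : ℝ) (v : Fin 3) : Set (Dx X0) := {x | rp δ1 x ∈ bs δ1 δ2 ε v}

/-- the heights of the three towers -/
def rb (q1 q2 : ℕ) : Fin 3 → ℕ
  | 0 => q1
  | 1 => q2
  | 2 => q1 + q2

/-- a family of three matrices -/
def fam {R : Type} {q1 q2 : ℕ} (M0 : Matrix (Fin q1) (Fin q1) R) (M1 : Matrix (Fin q2) (Fin q2) R)
    (M2 : Matrix (Fin (q1 + q2)) (Fin (q1 + q2)) R) : ∀ v : Fin 3, Matrix (Fin (rb q1 q2 v)) (Fin (rb q1 q2 v)) R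
  | 0 => M0
  | 1 => M1
  | 2 => M2

/-- a matrix depending on a real number as a matrix of functions on the discrete circle -/
noncomputable def lf (δ1 : ℝ) {r : ℕ} (M : ℝ → Matrix (Fin r) (Fin r) ℂ) : Matrix (Fin r) (Fin r) C(Dx X0, ℂ) :=
  fun i k => ⟨fun x => M (rp δ1 x) i k, continuous_of_discreteTopology⟩

/-- block diagonal matrix, first block of size `a` -/
def bsm {R : Type} [Zero R] {a b : ℕ} (P : Matrix (Fin a) (Fin a) R) (Q : Matrix (Fin b) (Fin b) R) :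
    Matrix (Fin (a + b)) (Fin (a + b)) R :=
  Matrix.reindex finSumFinEquiv finSumFinEquiv (Matrix.fromBlocks P 0 0 Q)

/-- block diagonal matrix with `P` (of size `b`) first, as a matrix of size `a + b` -/
def bsc {R : Type} [Zero R] {a b : ℕ} (P : Matrix (Fin b) (Fin b) R) (Q : Matrix (Fin a) (Fin a) R) :
    Matrix (Fin (a + b)) (Fin (a + b)) R :=
  Matrix.reindex (finCongr (Nat.add_comm b a)) (finCongr (Nat.add_comm b a)) (bsm P Q)

/-- the permutation of the columns which exchanges the two orders of the blocks -/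
def swp (a b : ℕ) : Fin (a + b) ≃ Fin (a + b) :=
  ((finSumFinEquiv.symm.trans (Equiv.sumComm (Fin a) (Fin b))).trans finSumFinEquiv).trans (finCongr (Nat.add_comm b a))

/-- admissible families: continuous and matching near `0` -/
structure Adm (q1 q2 : ℕ) (δ1 δ2 ε : ℝ) (M0 : ℝ → Matrix (Fin q1) (Fin q1) ℂ) (M1 : ℝ → Matrix (Fin q2) (Fin q2) ℂ)
    (M2 : ℝ → Matrix (Fin (q1 + q2)) (Fin (q1 + q2)) ℂ) : Prop where
  c0 : Continuous M0
  c1 : Continuous M1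
  c2 : Continuous M2
  mp : ∀ s, ε / 2 ≤ s → s ≤ ε → M2 s = bsm (M0 s) (M1 (s - δ1))
  mm : ∀ s, -ε ≤ s → s ≤ -(ε / 2) → M2 s = bsc (M1 s) (M0 (s + δ2))

/-- all the data for the towers -/
structure Dat (θ δ1 δ2 ε : ℝ) (q1 q2 N N' : ℕ) (g y : FS X0) (κ0 : Fin q1 → Fin 4) (κ1 : Fin q2 → Fin 4)
    (σ0 : Equiv.Perm (Fin q1)) (σ1 : Equiv.Perm (Fin q2)) (u0 : ℝ → Matrix (Fin q1) (Fin q1) ℂ)
    (u1 : ℝ → Matrix (Fin q2) (Fin q2) ℂ) (u2 : ℝ → Matrix (Fin (q1 + q2)) (Fin (q1 + q2)) ℂ) : Prop where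
  i0 : IV q1 κ0 σ0
  i1 : IV q2 κ1 σ1
  c0 : Continuous u0
  c1 : Continuous u1
  c2 : Continuous u2
  m0 : ∀ s, u0 s ∈ US q1 (SB q1 N) (SB q1 N') κ0
  m1 : ∀ s, u1 s ∈ US q2 (SB q2 N) (SB q2 N') κ1
  m2 : ∀ s, u2 s ∈ US (q1 + q2) (SB (q1 + q2) N) (SB (q1 + q2) N') (Fin.append κ0 κ1)
  g0 : ∀ s, 0 ≤ s → s ≤ δ2 → IsUnit (Gm κ0 (u0 s) (cw θ q1 g s) (cw θ q1 y s))
  g1 : ∀ s, -δ1 ≤ s → s ≤ 0 → IsUnit (Gm κ1 (u1 s) (cw θ q2 g s) (cw θ q2 y s))
  g2 : ∀ s, -ε ≤ s → s ≤ ε →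
    IsUnit (Gm (Fin.append κ0 κ1) (u2 s) (cw θ (q1 + q2) g s) (cw θ (q1 + q2) y s))
  mp : ∀ s, ε / 2 ≤ s → s ≤ ε → u2 s = bsm (u0 s) (u1 (s - δ1))
  mm : ∀ s, -ε ≤ s → s ≤ -(ε / 2) → u2 s = (bsc (u1 s) (u0 (s + δ2))).submatrix id (swp q1 q2)

/-- the matrices `G(s)` -/
noncomputable def GG (θ : ℝ) {r : ℕ} (g y : FS X0) (κ : Fin r → Fin 4) (u : ℝ → Matrix (Fin r) (Fin r) ℂ) (s : ℝ) :
    Matrix (Fin r) (Fin r) ℂ :=
  Gm κ (u s) (cw θ r g s) (cw θ r y s)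

/-- the matrices `P(s) Z G(s)⁻¹` -/
noncomputable def tri {r : ℕ} (P G : ℝ → Matrix (Fin r) (Fin r) ℂ) (Z : Matrix (Fin r) (Fin r) ℂ) (s : ℝ) :
    Matrix (Fin r) (Fin r) ℂ :=
  P s * Z * (G s)⁻¹

/-- the diagonal matrix of the columns of type `t` -/
def dg {r : ℕ} (κ : Fin r → Fin 4) (t : Fin 4) : Matrix (Fin r) (Fin r) ℂ := Matrix.diagonal fun l => if κ l = t then 1 else 0

/-- the matrix which maps the column `l` of type 3 to the column `σ l` of type 2 -/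
def wm {r : ℕ} (κ : Fin r → Fin 4) (σ : Equiv.Perm (Fin r)) : Matrix (Fin r) (Fin r) ℂ :=
  fun i l => if κ l = 3 ∧ i = σ l then 1 else 0

/-- the block element of three functions -/
noncomputable def be (θ δ1 δ2 ε : ℝ) {q1 q2 : ℕ} (M0 : ℝ → Matrix (Fin q1) (Fin q1) ℂ) (M1 : ℝ → Matrix (Fin q2) (Fin q2) ℂ)
    (M2 : ℝ → Matrix (Fin (q1 + q2)) (Fin (q1 + q2)) ℂ) : FS (Dx X0) :=
  BB (hD (rot θ)) (Yb δ1 δ2 ε) (rb q1 q2) (fam (lf δ1 M0) (lf δ1 M1) (lf δ1 M2))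

/-- functions which are polynomial along complex lines -/
structure PF {E : Type} [AddCommGroup E] [Module ℂ E] [TopologicalSpace E] (F : ℝ → E → ℂ) : Prop where
  cont : Continuous fun q : ℝ × E => F q.1 q.2
  pol : ∀ (s : ℝ) (u v : E), ∃ P : Polynomial ℂ, ∀ z : ℂ, F s (u + z • (v - u)) = P.eval z

end Pool.Agent.Helper49.KR
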