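import Pool.Agent.Helper49.KR.St

/-!
# Project KR (MP_c973ff_an): final assembly from the statements of the modules
-/

set_option autoImplicit false

namespace Pool.Agent.Helper49.KR

open Finset Filter Topology Module MeasureTheory
open Pool.Agent.Helper49.KX
open scoped ENNReal

theorem Deg.mono {g : FS X0} {M N : ℕ} (h : Deg g M) (hMN : M ≤ N) : Deg g N := fun m hm =>
  h m (lt_of_le_of_lt (by exact_mod_cast hMN) hm)

/-- every finite sum satisfies the exchange condition, rotations of `ℝ/ℤ` -/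
theorem rot_sum (hEvm : StEvm) (hAlg : StAlg) (hBbm : StBbm) (hBba : StBba) (hAbs : StAbs) (hSyn : StSyn)
    (hEmb : StEmb) (hDeg : StDeg) (hCmm : StCmm) (hSpl : StSpl) (hLsc : StLsc) (hEqd : StEqd) (hAvg : StAvg) (hDsm : StDsm)
    (hMnm : StMnm) (hCnt : StCnt) (hGen : StGen) (hNem : StNem) (hPcn : StPcn) (hPta : StPta) (hPth : StPth) (hFmp : StFmp)
    (hRot : StRot) (hTwr : StTwr) (hAdm : StAdm) (hBlk : StBlk) (hBlc : StBlc) (hBsm : StBsm) (hTri : StTri) (hPrt : StPrt)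
    (hWmt : StWmt) (hRel : StRel) (hAsr : StAsr) (hFlr : StFlr)
    (θ : ℝ) (hθ : Irrational θ) (g : FS X0) :
    ∃ y z : FS X0, tw (rot θ) (tw (rot θ) g y) (tw (rot θ) g y) = tw (rot θ) g y ∧
      un - tw (rot θ) g y = tw (rot θ) (un - g) z := by
  by_cases h0 : tw (rot θ) g (un - g) = 0
  · obtain ⟨A, _, _, j, U, hc, hinj, hsurj⟩ := hAlg hEvm X0 (rot θ)
    obtain ⟨hE1, hE2, hE3, hE4, hE5⟩ := hEvm X0 (rot θ) A j U hc
    have h1 : ev j U g * (1 - ev j U g) = 0 := by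
      rw [← hE4, ← hE3, ← hE5, h0]
      simp [ev]
    have h2 : ev j U g * ev j U g = ev j U g := by
      rw [mul_sub, mul_one, sub_eq_zero] at h1
      exact h1.symm
    refine ⟨un, un, hinj ?_, hinj ?_⟩
    · rw [hE5, hE5, hE4, mul_one]
      exact h2
    · rw [hE3, hE4, hE5, hE5, hE4, mul_one, mul_one, hE3, hE4]
  · obtain ⟨s0, V, hF⟩ := hFlr θ hθ g h0
    obtain ⟨N1, hN1⟩ := exists_deg g
    obtain ⟨N2, hN2⟩ := exists_deg s0
    have hg : Deg g (N1 + N2) := Deg.mono hN1 (by omega)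
    have hs : Deg s0 (N1 + N2) := Deg.mono hN2 (by omega)
    have hy : Deg (yy θ g s0) (4 * (N1 + N2)) := by
      have h1 := (hDeg θ g g (N1 + N2) (N1 + N2) hg hg).2
      have h2 := (hDeg θ g (un - g) (N1 + N2) (N1 + N2) hg h1).1
      exact Deg.mono (hDeg θ _ s0 _ (N1 + N2) h2 hs).1 (by omega)
    obtain ⟨r0, hr0⟩ := hCnt hSpl hLsc hAvg hEqd hDsm hCmm hEvm hAlg hDeg hSyn hMnm θ hθ g s0 V (N1 + N2) hF hg hs
    obtain ⟨δ1, δ2, q1, q2, hR, hq1, hq2⟩ := hRot θ hθ r0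
    have key : ∀ r, r0 ≤ r → ∃ (κ : Fin r → Fin 4) (σ : Equiv.Perm (Fin r)), IV r κ σ ∧
        ∀ s, ∃ u ∈ US r (SB r (N1 + N2)) (SB r (4 * (N1 + N2))) κ,
          IsUnit (Gm κ u (cw θ r g s) (cw θ r (yy θ g s0) s)) := by
      intro r hr
      obtain ⟨A, B, h1, h2, h3, h4, h5, h6⟩ := hr0 r hr
      obtain ⟨κ, σ, hi, hu⟩ := hNem hGen r (SB r (N1 + N2)) (SB r (4 * (N1 + N2))) (2 * (N1 + N2)) A B h1 h2 h3
        (card_SB r (N1 + N2))
      refine ⟨κ, σ, hi, fun s => ?_⟩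
      obtain ⟨k1, k2, k3, k4, k5⟩ := hDsm hCmm hEvm hAlg hDeg θ g s0 V (N1 + N2) r s hF hg hs
      exact hu _ _ k1 k2 (h6 s) (h4 s) (h5 s) k4
    obtain ⟨κ0, σ0, hi0, hu0⟩ := key q1 hq1
    obtain ⟨κ1, σ1, hi1, hu1⟩ := key q2 hq2
    obtain ⟨ε, u0, u1, u2, e1, e2, e3, hD⟩ := hTri hPth hPta hPcn hFmp hBlk hBlc hBsm θ δ1 δ2 q1 q2 hR g (yy θ g s0)
      (N1 + N2) (4 * (N1 + N2)) hg hy κ0 κ1 σ0 σ1 hi0 hi1 hu0 hu1
    have hT := hTwr hSyn hMnm θ δ1 δ2 ε q1 q2 hθ hR e1 (by linarith) (by linarith)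
    exact hAsr hEvm hAlg hEmb hBbm hAbs hAdm hPrt hRel hBlk hBlc hBsm hWmt hBba θ δ1 δ2 ε q1 q2 (N1 + N2) (4 * (N1 + N2)) g s0
      κ0 κ1 σ0 σ1 u0 u1 u2 hR e1 e2 e3 hg hy hD hT

/-- the theorem for the unit circle, from the algebraic statement -/
theorem krFinal (hEvm : StEvm) (hOpn : StOpn) (hCnj : StCnj) (hCir : StCir)
    (hsum : ∀ θ : ℝ, Irrational θ → ∀ g : FS X0, ∃ y z : FS X0, tw (rot θ) (tw (rot θ) g y) (tw (rot θ) g y) = tw (rot θ) g y ∧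
      un - tw (rot θ) g y = tw (rot θ) (un - g) z) (θ : ℝ) (hθ : Irrational θ) (h : Circle ≃ₜ Circle)
    (hh : h = Homeomorph.mulLeft (Circle.exp (2 * Real.pi * θ))) :
    (∀ g : FS Circle, ∃ y z : FS Circle, tw h (tw h g y) (tw h g y) = tw h g y ∧ un - tw h g y = tw h (un - g) z) ∧
    ∀ (p : ℝ≥0∞) [Fact (1 ≤ p)], p ≠ ∞ → ∀ (A : Type) [NormedRing A] [NormedAlgebra ℂ A] (j : C(Circle, ℂ) →ₐ[ℂ] A) (U : Aˣ),
      IsFp p h A j U →
      (∀ g : FS Circle, Suit (ev j U g)) ∧ IsOpen {x : A | Suit x} ∧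
        Dense {x : A | Suit x} := by
  obtain ⟨φ, hφ⟩ := hCir
  have h1 : ∀ g : FS Circle, ∃ y z : FS Circle, tw h (tw h g y) (tw h g y) = tw h g y ∧
      un - tw h g y = tw h (un - g) z := by
    have := hCnj X0 Circle φ (rot θ) (hsum θ hθ)
    rwa [hφ θ, ← hh] at this
  refine ⟨h1, ?_⟩
  intro p _ hp A _ _ j U hA
  have hs : ∀ g : FS Circle, Suit (ev j U g) := by
    intro g
    obtain ⟨y, z, e1, e2⟩ := h1 g
    obtain ⟨hE1, hE2, hE3, hE4, hE5⟩ := hEvm Circle h A j U hA.cov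
    refine ⟨ev j U y, ev j U z, ?_, ?_⟩
    · rw [← hE5, ← hE5, e1]
    · rw [← hE5, ← hE4, ← hE3, e2, hE5, hE3]
  have := hA.complete
  refine ⟨hs, hOpn A, hA.dense.mono ?_⟩
  rintro _ ⟨g, rfl⟩
  exact hs g

end Pool.Agent.Helper49.KR
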