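import Pool.Agent.Helper49.KR.Defs
import Pool.Agent.Helper49.KX.Fin

/-!
# Project KR (MP_c973ff_an): statements of the modules, with complete proofs in the docstrings

Throughout `X0 = ℝ/ℤ`, `rot θ` is the rotation, `(rot θ ^ n) x = x + n θ` (`rot_zpow` in Defs), `(s : X0)` is the class of `s`.
-/

set_option autoImplicit false

namespace Pool.Agent.Helper49.KR

open Finset Filter Topology Module
open Pool.Agent.Helper49.KX

/-! ### windows -/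

/-- EMB (finite sums with continuous coefficients inside finite sums with arbitrary coefficients).

Proof. `(hD h ^ n) x = (h ^ n) x`; `tw` is a double sum of `single`s, `embF` is additive, `emb` is a ring homomorphism and
`emb (cmp h n f) = cmp (hD h) n (emb f)`. -/
def StEmb : Prop :=
  ∀ (X : Type) [TopologicalSpace X] (h : X ≃ₜ X), Function.Injective (embF : FS X → FS (Dx X)) ∧
    (∀ g g' : FS X, embF (g + g') = embF g + embF g') ∧ (∀ g g' : FS X, embF (g - g') = embF g - embF g') ∧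
    embF (un : FS X) = un ∧ (∀ g g' : FS X, embF (tw h g g') = tw (hD h) (embF g) (embF g')) ∧
    (∀ (n : ℤ) (x : X), (hD h ^ n : Dx X ≃ₜ Dx X) x = (h ^ n : X ≃ₜ X) x) ∧
    (∀ (g : FS X) (n : ℤ) (x : X), (embF g n : Dx X → ℂ) x = g n x)

/-- DEG (degrees).

Proof. The coefficient of `tw a b` at `m` is a sum over `m = n + n'` with `a_n ≠ 0`, `b_(n') ≠ 0`. -/
def StDeg : Prop :=
  ∀ (θ : ℝ) (a b : FS X0) (M N : ℕ), Deg a M → Deg b N → Deg (tw (rot θ) a b) (M + N) ∧ Deg (un - a) M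

/-- CMM (window matrices are multiplicative on vectors which vanish near the boundary).

Proof. Let `w` vanish on `SB r (N + N')`, so `w_i ≠ 0` implies `N + N' ≤ i < r - N - N'`.  `(cw b s w)_k = ∑_i b_(k-i)(s + kθ) w_i`; a nonzero term has
`|k - i| ≤ N'`, so `N ≤ k < r - N`; this is the first claim.  Second: `(tw a b)_(k-i)(x) = ∑_n a_n(x) b_(k-i-n)(x - nθ)`; with `x = s + kθ`, `l = k - n`:
`∑_(l ∈ ℤ) a_(k-l)(s + kθ) b_(l-i)(s + lθ)`; for `i` with `w_i ≠ 0` only `l` with `|l - i| ≤ N'` contribute, and these are in `[0, r)`. -/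
def StCmm : Prop :=
  ∀ (θ : ℝ) (r : ℕ) (a b : FS X0) (N N' : ℕ) (s : ℝ), Deg b N' → ∀ w ∈ Zs r (SB r (N + N')),
    Matrix.mulVec (cw θ r b s) w ∈ Zs r (SB r N) ∧
    Matrix.mulVec (cw θ r (tw (rot θ) a b) s) w = Matrix.mulVec (cw θ r a s) (Matrix.mulVec (cw θ r b s) w)

/-- SPL (the rank is superadditive in the window).

Proof. For `l < n` let `ι_l : ℂ^ℓ → ℂ^r`, `(ι_l w)_(lℓ+i) = w_i`, zero elsewhere.  For `w ∈ Zs ℓ (SB ℓ N)`: `ι_l w ∈ Zs r (SB r N)` (its support is in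
`[lℓ + N, lℓ + ℓ - N)`), and `cw r s (ι_l w) = ι_l (cw ℓ (s + lℓθ) w)`: the entry `k` is `∑_i g_(k-lℓ-i)(s + kθ) w_i`, nonzero terms have `|k - lℓ - i| ≤ N`,
`N ≤ i < ℓ - N`, so `0 ≤ k - lℓ < ℓ`.  So the image contains the (independent: disjoint supports) spaces `ι_l (im ...)`. -/
def StSpl : Prop :=
  ∀ (θ : ℝ) (g : FS X0) (N ℓ n r : ℕ) (s : ℝ), Deg g N → n * ℓ ≤ r →
    ∑ l ∈ Finset.range n, rk θ ℓ g N (s + (l : ℝ) * ((ℓ : ℝ) * θ)) ≤ rk θ r g N s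

/-- LSC (the rank is lower semicontinuous and periodic).

Proof. `k ≤ rk` iff there are `w_1, ..., w_k ∈ Zs` with `cw s w_j` linearly independent; for fixed `w_j` this is an open condition on `s`
(`cw` is continuous in `s`, and linear independence of a finite family is an open condition).  Periodicity: `cw θ r g (s + 1) = cw θ r g s`. -/
def StLsc : Prop :=
  ∀ (θ : ℝ) (g : FS X0) (N ℓ : ℕ), (∀ k : ℕ, IsOpen {s : ℝ | k ≤ rk θ ℓ g N s}) ∧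
    ∀ s, rk θ ℓ g N (s + 1) = rk θ ℓ g N s

/-- EQD (Birkhoff sums of a continuous function are nearly constant).

Proof. `ψ` is bounded by `B` and uniformly continuous: `|ψ s - ψ s'| ≤ ε/2` for `|s - s'| < δ`.  There is `m` such that for all `s, s'` there are `i < m`, `k ∈ ℤ`
with `|s + iα + k - s'| < δ` (the forward orbit of an irrational rotation is dense, uniformly: compactness).  Then
`∑_l ψ(s + lα) ≤ ∑_l ψ(s + iα + lα) + 2mB ≤ ∑_l ψ(s' + lα) + nε/2 + 2mB`.  Take `n0 ≥ 4mB/ε`. -/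
def StEqd : Prop :=
  ∀ α : ℝ, Irrational α → ∀ ψ : ℝ → ℝ, Continuous ψ → (∀ s, ψ (s + 1) = ψ s) → ∀ ε : ℝ, 0 < ε → ∃ n0 : ℕ, ∀ n : ℕ, n0 ≤ n →
    ∀ s s' : ℝ, ∑ l ∈ Finset.range n, ψ (s + (l : ℝ) * α) - ∑ l ∈ Finset.range n, ψ (s' + (l : ℝ) * α) ≤ ε * n

/-- AVG (two lower semicontinuous functions).

Proof. `ψ_i^k(s) = inf_t (ρ_i(t) + k|s - t|)`, `k ∈ ℕ`: `k`-Lipschitz, of period 1, `0 ≤ ψ_i^k ≤ ρ_i`, increasing in `k`; for every `s` there is `η > 0` with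
`ρ_i ≥ ρ_i(s)` on `(s - η, s + η)`, so `ψ_i^k(s) = ρ_i(s)` if `kη ≥ ρ_i(s)`.  So the open sets `{s : ψ_1^k(s) + ψ_2^k(s) > L - ε/2}` increase with `k` and
cover `[0,1]`; hence `ψ_1^k + ψ_2^k > L - ε/2` everywhere for some `k`.  StEqd for `ψ_1^k` with `ε/2`:
`∑ρ_1(s + lα) + ∑ρ_2(s' + lα) ≥ ∑ψ_1(s + lα) + ∑ψ_2(s' + lα) ≥ ∑(ψ_1 + ψ_2)(s' + lα) - nε/2 ≥ (L - ε) n`. -/
def StAvg : Prop :=
  StEqd → ∀ α : ℝ, Irrational α → ∀ (ρ1 ρ2 : ℝ → ℕ) (L : ℕ), (∀ k, IsOpen {s | k ≤ ρ1 s}) → (∀ k, IsOpen {s | k ≤ ρ2 s}) →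
    (∀ s, ρ1 (s + 1) = ρ1 s) → (∀ s, ρ2 (s + 1) = ρ2 s) → (∀ s, L ≤ ρ1 s + ρ2 s) → ∀ ε : ℝ, 0 < ε → ∃ n0 : ℕ, ∀ n : ℕ, n0 ≤ n →
    ∀ s s' : ℝ, ((L : ℝ) - ε) * n ≤ ((∑ l ∈ Finset.range n, ρ1 (s + (l : ℝ) * α) : ℕ) : ℝ) +
      ((∑ l ∈ Finset.range n, ρ2 (s' + (l : ℝ) * α) : ℕ) : ℝ)

/-- DSM (dimensions in a window).

Proof. By associativity (StEvm, StAlg: `ev` is injective and multiplicative) `y = yy θ g s0 = g (b)`, `b = tw (un - g) s0`, and `y = (un - g) b'`, `b' = tw g s0`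
(`g (1 - g) = (1 - g) g`); `b, b'` have degree `≤ 2N`.  For `w ∈ Zs r (SB r (4N))`, StCmm (`N := 2N`, `N' := 2N`): `cw y w = cw g (cw b w)` with
`cw b w ∈ Zs r (SB r (2N)) ≤ Zs r (SB r N)`, and the same with `un - g`, `b'`; `cw (un - g) = 1 - cw g`.  Third claim: for `τ, τ' ∈ vis` the entry `(τ', τ)` of
`cw y s` is `y_(τ'-τ)(s + τ'θ)`, with `x = s + τ'θ ∈ V`, `x - (τ' - τ)θ ∈ V`, so it is `1` for `τ = τ'`, else `0`; hence the vectors `cw y s e_τ`, `τ ∈ vis`, in the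
image (`τ ∉ SB r (4N)`) are independent.  Fourth: `w = c w + (1 - c) w` so the sum of the images contains `Zs r (SB r N)`, of dimension `r - |SB r N|`. -/
def StDsm : Prop :=
  StCmm → StEvm → StAlg → StDeg → ∀ (θ : ℝ) (g s0 : FS X0) (V : Set X0) (N r : ℕ) (s : ℝ), Flx θ g s0 V → Deg g N → Deg s0 N →
    im (cw θ r (yy θ g s0) s) (SB r (4 * N)) ≤ im (cw θ r g s) (SB r N) ∧
    im (cw θ r (yy θ g s0) s) (SB r (4 * N)) ≤ im (1 - cw θ r g s) (SB r N) ∧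
    (vis (rot θ) r (4 * N) V (s : X0)).card ≤ finrank ℂ (im (cw θ r (yy θ g s0) s) (SB r (4 * N))) ∧
    r ≤ finrank ℂ (im (cw θ r g s) (SB r N) ⊔ im (1 - cw θ r g s) (SB r N) : Submodule ℂ (Fin r → ℂ)) + (SB r N).card ∧
    1 - cw θ r g s = cw θ r (un - g) s

/-- MNM (orbits of irrational rotations are dense).

Proof. Mathlib: multiples of an irrational number are dense in the circle. -/
def StMnm : Prop :=
  ∀ θ : ℝ, Irrational θ → ∀ x : X0, Dense (Set.range fun n : ℤ => (rot θ ^ n : X0 ≃ₜ X0) x)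

/-- CNT (constant formats for long windows).

Proof. Let `ρ_1^r(s) = rk θ r g N s`, `ρ_2^r(s) = rk θ r (un - g) N s` (`un - g` has degree `≤ N`).  `|SB r N| ≤ 2N` (`card_SB`).  By StDsm and
`dim V1 + dim V2 = dim (V1 ⊔ V2) + dim (V1 ⊓ V2)`: `ρ_1^r(s) + ρ_2^r(s) ≥ r - 2N + |vis(r, s)|`, where `vis(r, s) = vis (rot θ) r (4N) V s`, and
`ρ_i^r(s) ≥ |vis(r, s)|`, `dim im (cw y) ≥ |vis(r, s)|`.  By StSyn and StMnm there is `G` with: every `G` consecutive points of an orbit meet `V`, so `|vis(r, s)| ≥ K` for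
`r ≥ 8N + K G`.  Fix `ℓ = 8N + (2N + 1) G + 1`: `ρ_1^ℓ + ρ_2^ℓ ≥ ℓ + 1` everywhere.  StAvg (with StLsc) for `α = ℓθ`, `ρ_i = ρ_i^ℓ`, `L = ℓ + 1`, `ε = 1/4`: for `n ≥ n0`
and all `s, s'` (StSpl): `ρ_1^r(s) + ρ_2^r(s') ≥ (ℓ + 3/4) n` if `nℓ ≤ r`.  For large `r` take `n = r / ℓ ≥ max n0 (2ℓ)`; then `r < (n + 1) ℓ ≤ nℓ + 3n/4`, so
`ρ_1^r(s) + ρ_2^r(s') ≥ r`.  Let `A0 = min_s ρ_1^r`, `B0 = min_s ρ_2^r`: `A0 + B0 ≥ r`, and `A0, B0 ≥ 2N` if `r ≥ 8N + 2N G`.  For `r ≥ 4N`: `A = max (2N) (r - B0)`, `B = r - A`. -/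
def StCnt : Prop :=
  StSpl → StLsc → StAvg → StEqd → StDsm → StCmm → StEvm → StAlg → StDeg → StSyn → StMnm →
  ∀ θ : ℝ, Irrational θ → ∀ (g s0 : FS X0) (V : Set X0) (N : ℕ), Flx θ g s0 V → Deg g N → Deg s0 N →
    ∃ r0 : ℕ, ∀ r : ℕ, r0 ≤ r → ∃ A B : ℕ, A + B = r ∧ 2 * N ≤ A ∧ 2 * N ≤ B ∧ (∀ s, A ≤ finrank ℂ (im (cw θ r g s) (SB r N))) ∧
      (∀ s, B ≤ finrank ℂ (im (1 - cw θ r g s) (SB r N))) ∧
      ∀ s, 2 * N ≤ finrank ℂ (im (cw θ r (yy θ g s0) s) (SB r (4 * N)))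

/-- GEN (subspaces of given dimensions).

Proof. `F ≤ E` of dimension `m`; `I = V1 ⊓ V2 = F ⊕ I0`, `V1 = I ⊕ A1`, `V2 = I ⊕ A2`, so `V1 ⊔ V2 = F ⊕ I0 ⊕ A1 ⊕ A2`; with `i, a1, a2` the dimensions of `I0, A1, A2`:
`a ≤ i + a1`, `b ≤ i + a2`, `a + b ≤ i + a1 + a2`.  `a' = min a a1`, `a'' = a - a'`, `b' = min b a2`, `b'' = b - b'`; then `a'' + b'' ≤ i`.  Choose `P' ≤ A1`, `Q' ≤ A2` of
dimensions `a'`, `b'` and independent `P'', Q'' ≤ I0` of dimensions `a'', b''`; `P = P' ⊔ P''`, `Q = Q' ⊔ Q''`, `R` = a complement of `P ⊔ Q ⊔ F` in `V`. -/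
def StGen : Prop :=
  ∀ (V : Type) [AddCommGroup V] [Module ℂ V] [FiniteDimensional ℂ V] (V1 V2 E : Submodule ℂ V) (a b m : ℕ), E ≤ V1 → E ≤ V2 →
    m ≤ finrank ℂ E → a + m ≤ finrank ℂ V1 → b + m ≤ finrank ℂ V2 → a + b + m ≤ finrank ℂ (V1 ⊔ V2 : Submodule ℂ V) →
    a + b + 2 * m = finrank ℂ V →
    ∃ P Q F R : Submodule ℂ V, P ≤ V1 ∧ Q ≤ V2 ∧ F ≤ E ∧ finrank ℂ P = a ∧ finrank ℂ Q = b ∧ finrank ℂ F = m ∧
      finrank ℂ R = m ∧ P ⊔ Q ⊔ F ⊔ R = ⊤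

/-- NEM (data of a fixed format exist at every point).

Proof. `a = A - m`, `b = B - m`, `a + b + 2m = r`.  `κ l = 0` for `l < a`, `1` for `a ≤ l < a + b`, `2` for `a + b ≤ l < a + b + m`, `3` for `l ≥ a + b + m`; `σ` exchanges `l` and
`l + m` for `a + b ≤ l < a + b + m` and fixes the other `l`.  Given `c, η`, apply StGen in `Fin r → ℂ` to `V1 = im c S`, `V2 = im (1 - c) S`, `E = im η S'`
(`a + b + m = r - m ≤ r - |S| ≤ dim (V1 ⊔ V2)`).  Bases `p_l`, `q_l`, `f_l`, `r_l` of `P, Q, F, R`, numbered by the `l` of type 0, 1, 2, 3; column `l` of `u`: `w ∈ Zs r S` with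
`c w = p_l` for type 0, `w ∈ Zs r S` with `(1 - c) w = q_l` for type 1, `w ∈ Zs r S'` with `η w = f_l` for type 2, `r_l` for type 3.  The columns of `Gm κ u c η` are a
spanning family of `r` vectors, so a basis.  (`u - c * u = (1 - c) * u`.) -/
def StNem : Prop :=
  StGen → ∀ (r : ℕ) (S S' : Finset (Fin r)) (m A B : ℕ), A + B = r → m ≤ A → m ≤ B → S.card ≤ m →
    ∃ (κ : Fin r → Fin 4) (σ : Equiv.Perm (Fin r)), IV r κ σ ∧ ∀ c η : Matrix (Fin r) (Fin r) ℂ,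
      im η S' ≤ im c S → im η S' ≤ im (1 - c) S → m ≤ finrank ℂ (im η S') → A ≤ finrank ℂ (im c S) →
      B ≤ finrank ℂ (im (1 - c) S) → r ≤ finrank ℂ (im c S ⊔ im (1 - c) S : Submodule ℂ (Fin r → ℂ)) + S.card →
      ∃ u ∈ US r S S' κ, IsUnit (Gm κ u c η)

/-! ### paths -/

/-- PCN (paths which avoid the zeros of a polynomial).

Proof. `P ≠ 0` has finitely many roots; the complement of a finite (countable) set in `ℂ` is path connected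
(`Set.Countable.isPathConnected_compl_of_one_lt_rank`); extend a path from `0` to `1` by constants (`Path.extend`). -/
def StPcn : Prop :=
  ∀ P : Polynomial ℂ, P.eval 0 ≠ 0 → P.eval 1 ≠ 0 →
    ∃ γ : ℝ → ℂ, Continuous γ ∧ (∀ t, t ≤ 0 → γ t = 0) ∧ (∀ t, 1 ≤ t → γ t = 1) ∧ ∀ t, P.eval (γ t) ≠ 0

/-- PTA (a change of the data near a point).

Proof. `P` with `F s0 (u0 + z (u1 - u0)) = P(z)`, `γ` from StPcn, `w t = u0 + γ t (u1 - u0)`: `F s0 (w t) ≠ 0` for all `t`, and the values of `w` are those on the compact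
`[0,1]`.  By compactness (tube lemma) there is `ε0 > 0` with `F s (w t) ≠ 0` for `|s - s0| ≤ ε0` and all `t`.  `u s = w ((s - s0)/ε + 1/2)`. -/
def StPta : Prop :=
  StPcn → ∀ (E : Type) [AddCommGroup E] [Module ℂ E] [TopologicalSpace E] [ContinuousAdd E] [ContinuousSMul ℂ E]
    (F : ℝ → E → ℂ), PF F → ∀ (s0 : ℝ) (u0 u1 : E), F s0 u0 ≠ 0 → F s0 u1 ≠ 0 →
    ∃ ε0 : ℝ, 0 < ε0 ∧ ∀ ε : ℝ, 0 < ε → ε ≤ ε0 → ∃ u : ℝ → E, Continuous u ∧ (∀ s, |s - s0| ≤ ε → F s (u s) ≠ 0) ∧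
      (∀ s, s ≤ s0 - ε / 2 → u s = u0) ∧ ∀ s, s0 + ε / 2 ≤ s → u s = u1

/-- PTH (a path of data over an interval).

Proof. Every `s ∈ [α, β]` has a `v_s` with `F s' v_s ≠ 0` for `s'` near `s`; also `F s' ua ≠ 0` near `α` and `F s' ub ≠ 0` near `β`.  So (Lebesgue number) there are
`α = t_0 < ... < t_n = β` and `v_1 = ua, ..., v_n = ub` (`n ≥ 2`) with `F s v_i ≠ 0` for `s ∈ [t_(i-1), t_i]`.  At each `t_i`, `0 < i < n`, both `v_i` and `v_(i+1)` are good; StPta at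
`s0 = t_i` with a small `ε` (less than a third of the smallest gap) gives `w_i`, equal to `v_i` for `s ≤ t_i - ε/2` and to `v_(i+1)` for `s ≥ t_i + ε/2`; glue: `u = w_i` on
`[t_i - ε, t_i + ε]` and `u = v_i` on the rest of `[t_(i-1), t_i]`, `u = ua` to the left, `u = ub` to the right.  (Or: the set of the `t ∈ (α, β]` such that the claim
holds on `[α, t]` for every good end value is nonempty, open and closed.) -/
def StPth : Prop :=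
  StPta → StPcn → ∀ (E : Type) [AddCommGroup E] [Module ℂ E] [TopologicalSpace E] [ContinuousAdd E] [ContinuousSMul ℂ E]
    (F : ℝ → E → ℂ), PF F → ∀ α β : ℝ, α < β → (∀ s, α ≤ s → s ≤ β → ∃ u, F s u ≠ 0) → ∀ ua ub : E, F α ua ≠ 0 → F β ub ≠ 0 →
    ∃ (u : ℝ → E) (τ : ℝ), 0 < τ ∧ Continuous u ∧ (∀ s, α ≤ s → s ≤ β → F s (u s) ≠ 0) ∧ (∀ s, s ≤ α + τ → u s = ua) ∧
      ∀ s, β - τ ≤ s → u s = ub

/-- FMP (the determinant is polynomial along lines).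

Proof. `Gm κ u c η` is linear in `u` and its entries are continuous in `(u, s)`; the determinant of `M0 + z (M1 - M0)` is a polynomial in `z`
(determinant of a matrix of polynomials of degree one). -/
def StFmp : Prop :=
  ∀ (θ : ℝ) (r : ℕ) (g y : FS X0) (κ : Fin r → Fin 4) (W : Submodule ℂ (Matrix (Fin r) (Fin r) ℂ)),
    PF (E := W) fun s u => (Gm κ (u : Matrix (Fin r) (Fin r) ℂ) (cw θ r g s) (cw θ r y s)).det

/-! ### the towers over the circle -/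

/-- ROT (two towers).

Proof. For `K ≥ 1` let `q2 ∈ [1, K]` minimize `fract (kθ)`, `δ2` the minimum, `q1 ∈ [1, K]` minimize `fract (-kθ)`, `δ1` the minimum.  The values are in `(0,1)` and distinct for
distinct `k` (irrationality).  For `K → ∞` they tend to `0` (density of the orbit), so for large `K` we have `δ1 + δ2 < 1` and `q1, q2 ≥ L` (the values for `k < L` are bounded
below).  `ret1`: suppose `ρ = kθ + n`, `-δ1 ≤ s + ρ < δ2`, `0 < k < q1`, `s ∈ [0, δ2)`.  Then `-δ1 - δ2 < ρ < δ2`, `ρ ≠ 0`.  If `ρ > 0` then `fract (kθ) = ρ < δ2`, contradiction.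
If `ρ < 0` then `fract (-kθ) = -ρ`, which is `≥ δ1` and not equal (`k ≠ q1`), so `-ρ > δ1`, and `(q1 - k)θ = -δ1 - ρ` mod 1 with `0 < -δ1 - ρ < δ2`: contradiction to the choice of
`δ2`.  `ret2`: `s ∈ [-δ1, 0)`, `0 < k < q2`: `-δ1 < ρ < δ1 + δ2`.  `ρ < 0`: `fract (-kθ) = -ρ < δ1`, contradiction.  `ρ > 0`: `fract (kθ) = ρ > δ2`, and `(q2 - k)θ = δ2 - ρ` mod 1 with
`0 < ρ - δ2 < δ1`: `fract (-(q2 - k)θ) < δ1`, contradiction. -/
def StRot : Prop :=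
  ∀ θ : ℝ, Irrational θ → ∀ L : ℕ, ∃ (δ1 δ2 : ℝ) (q1 q2 : ℕ), Rot θ δ1 δ2 q1 q2 ∧ L ≤ q1 ∧ L ≤ q2

/-- TWR (three towers).

Proof. For `x ∈ X0` let `i` be the least natural number with `rp δ1 (x - iθ) ∈ [-δ1, δ2)` (it exists by StSyn, StMnm for the open set of the classes of `(-δ1, δ2)`),
`s = rp δ1 (x - iθ)`.  Then `i < q1` if `s ≥ 0` (else `x - (i - q1)θ` is the class of `s - δ1 ∈ [-δ1, δ2)`), `i < q2` if `s < 0` (`s + δ2`).  Cases: `s ∈ [ε, δ2 - ε)`: level `i` of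
tower 0; `s ∈ [-δ1 + ε, -ε)`: level `i` of tower 1; `s ∈ [-ε, ε)`: level `i` of tower 2; `s ∈ [-δ1, -δ1 + ε)`: `x = (s + δ1) + (q1 + i)θ`, level `q1 + i` of tower 2;
`s ∈ [δ2 - ε, δ2)`: `x = (s - δ2) + (q2 + i)θ`, level `q2 + i` of tower 2.  `disj`: from a level `i` of a tower over `s` one gets a pair `(i', s')` with `x = s' + i'θ`, `s' ∈ [-δ1, δ2)`,
`i' <` the height (`q1` for `s' ≥ 0`, `q2` for `s' < 0`): `(i, s)` for the towers 0, 1; for tower 2: `(i, s)` if `i < q1`, `s ≥ 0` or `i < q2`, `s < 0`, `(i - q1, s - δ1)` if `i ≥ q1`,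
`s ≥ 0`, `(i - q2, s + δ2)` if `i ≥ q2`, `s < 0`.  The pair is unique: if `i' < i''` then `s'` is the class of `s'' + (i'' - i')θ`, `0 < i'' - i' <` height of `s''`, against `ret1`, `ret2`.
The tower and the level are determined by `(i', s')`, as the six intervals are disjoint. -/
def StTwr : Prop :=
  StSyn → StMnm → ∀ (θ δ1 δ2 ε : ℝ) (q1 q2 : ℕ), Irrational θ → Rot θ δ1 δ2 q1 q2 → 0 < ε → 2 * ε < δ1 → 2 * ε < δ2 →
    Tow (hD (rot θ)) 3 (Yb δ1 δ2 ε) (rb q1 q2)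

/-- ADM (block elements of admissible families have continuous coefficients).

Proof. For `φ : ℝ → ℂ` put `φ^(x) = φ (rp δ1 x)`, and for `Φ : ℝ → Mat_r` let `B_r(Φ) = ∑_(i,l) single (i - l) ((Φ_il)^ ∘ rot^(-i))`.  If `Φ` is continuous on
`[-δ1, 1 - δ1]` and vanishes at `-δ1` and at `1 - δ1` then the coefficients of `B_r(Φ)` are continuous on `X0` (`AddCircle.liftIco_continuous`).  By definition
`be = B(1_[ε, δ2-ε) M0) + B(1_[-δ1+ε, -ε) M1) + B(1_[-ε, ε) M2)`.  Shifts: `-q1 θ = δ1`, `-q2 θ = -δ2` mod 1, so for a scalar function `ω` supported in `[ε/2, ε]`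
`B(ω bsm(M0(s), M1(s - δ1))) = B(ω M0) + B(ω(s + δ1) M1(s))`, and for `ω` supported in `[-ε, -ε/2]`
`B(ω bsc(M1(s), M0(s + δ2))) = B(ω M1) + B(ω(s - δ2) M0(s))`.  Let `χ(s) = max 0 (min 1 (2 - 2|s|/ε))`: `1` for `|s| ≤ ε/2`, `0` for `|s| ≥ ε`.  Split
`1_[-ε, ε) M2 = χ M2 + (1 - χ) 1_[-ε, -ε/2) M2 + (1 - χ) 1_[ε/2, ε) M2` (as functions on `[-δ1, 1 - δ1)`) and use `mp`, `mm`:
`be = B(χ_0 M0) + B(χ_1 M1) + B(χ M2)`, `χ_0(s) = (1 - χ(s))(1 - χ(s - δ2))` on `[0, δ2]` and `0` elsewhere, `χ_1(s) = (1 - χ(s))(1 - χ(s + δ1))` on `[-δ1, 0]` and `0` elsewhere.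
The three functions are continuous on `[-δ1, 1 - δ1]` and vanish at the ends (`δ1 + δ2 < 1`). -/
def StAdm : Prop :=
  ∀ (θ δ1 δ2 ε : ℝ) (q1 q2 : ℕ), Rot θ δ1 δ2 q1 q2 → 0 < ε → 4 * ε < δ1 → 4 * ε < δ2 →
    ∀ (M0 : ℝ → Matrix (Fin q1) (Fin q1) ℂ) (M1 : ℝ → Matrix (Fin q2) (Fin q2) ℂ)
      (M2 : ℝ → Matrix (Fin (q1 + q2)) (Fin (q1 + q2)) ℂ), Adm q1 q2 δ1 δ2 ε M0 M1 M2 →
    ∃ g : FS X0, embF g = be θ δ1 δ2 ε M0 M1 M2

/-! ### block structure of the data -/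

/-- BLK (two adjacent windows).

Proof. For `i < a` not in `SB a N`: `cw (a+b) g s` has the column `i` supported in `[0, a)`, where it is the column of `cw a g s` (`|k - i| ≤ N`); for `i = a + i'`, `i'` not in `SB b N`: the
column is supported in `[a, a + b)`, with the entries `g_(k'-i')(s + (a + k')θ)`, which are those of `cw b g (s + aθ)`.  The same for `y`, `N'`.  So for the columns of type 0, 1
(vanishing on `SB · N`) and of type 2 (vanishing on `SB · N'`) the products are block diagonal.  Membership: `SB (a+b) N` is contained in the union of `SB a N` and of the shift of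
`SB b N`. -/
def StBlk : Prop :=
  ∀ (θ : ℝ) (a b N N' : ℕ) (g y : FS X0) (κ0 : Fin a → Fin 4) (κ1 : Fin b → Fin 4) (u0 : Matrix (Fin a) (Fin a) ℂ)
    (u1 : Matrix (Fin b) (Fin b) ℂ) (s : ℝ), Deg g N → Deg y N' → u0 ∈ US a (SB a N) (SB a N') κ0 → u1 ∈ US b (SB b N) (SB b N') κ1 →
    bsm u0 u1 ∈ US (a + b) (SB (a + b) N) (SB (a + b) N') (Fin.append κ0 κ1) ∧
    Gm (Fin.append κ0 κ1) (bsm u0 u1) (cw θ (a + b) g s) (cw θ (a + b) y s) =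
      bsm (Gm κ0 u0 (cw θ a g s) (cw θ a y s)) (Gm κ1 u1 (cw θ b g (s + a * θ)) (cw θ b y (s + a * θ)))

/-- BLC (the same in the other order).

Proof. StBlk for `(b, a, u1, u0)` and transport along `Fin (b + a) = Fin (a + b)` (`cw θ (b + a)` and `cw θ (a + b)` have the same entries); the columns are renumbered by
`swp a b`, and `Fin.append κ0 κ1 = (Fin.append κ1 κ0 transported) ∘ swp a b`. -/
def StBlc : Prop :=
  StBlk → ∀ (θ : ℝ) (a b N N' : ℕ) (g y : FS X0) (κ0 : Fin a → Fin 4) (κ1 : Fin b → Fin 4) (u0 : Matrix (Fin a) (Fin a) ℂ)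
    (u1 : Matrix (Fin b) (Fin b) ℂ) (s : ℝ), Deg g N → Deg y N' → u0 ∈ US a (SB a N) (SB a N') κ0 → u1 ∈ US b (SB b N) (SB b N') κ1 →
    (bsc u1 u0).submatrix id (swp a b) ∈ US (a + b) (SB (a + b) N) (SB (a + b) N') (Fin.append κ0 κ1) ∧
    Gm (Fin.append κ0 κ1) ((bsc u1 u0).submatrix id (swp a b)) (cw θ (a + b) g s) (cw θ (a + b) y s) =
      (bsc (Gm κ1 u1 (cw θ b g s) (cw θ b y s)) (Gm κ0 u0 (cw θ a g (s + b * θ)) (cw θ a y (s + b * θ)))).submatrix id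
        (swp a b)

/-- BSM (calculus of block matrices).

Proof. `Matrix.fromBlocks_multiply`, `Matrix.reindex`; inverses: `bsm P Q * bsm P' Q' = bsm (P P') (Q Q')`.  For `swp`: `M.submatrix id e = M * (1 : Matrix).submatrix id e`, and
`(1).submatrix id (swp a b) * bsm Z0 Z1 * ((1).submatrix id (swp a b))⁻¹ = bsc Z1 Z0`. -/
def StBsm : Prop :=
  ∀ (a b : ℕ), (∀ (P P' : Matrix (Fin a) (Fin a) ℂ) (Q Q' : Matrix (Fin b) (Fin b) ℂ),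
      bsm (P * P') (Q * Q') = bsm P Q * bsm P' Q' ∧ bsm (P + P') (Q + Q') = bsm P Q + bsm P' Q' ∧
      (IsUnit P → IsUnit Q → IsUnit (bsm P Q) ∧ (bsm P Q)⁻¹ = bsm P⁻¹ Q⁻¹)) ∧
    bsm (1 : Matrix (Fin a) (Fin a) ℂ) (1 : Matrix (Fin b) (Fin b) ℂ) = 1 ∧
    (∀ (P P' : Matrix (Fin a) (Fin a) ℂ) (Q Q' : Matrix (Fin b) (Fin b) ℂ), IsUnit P → IsUnit Q →
      IsUnit ((bsc Q P).submatrix id (swp a b)) ∧ ∀ (Z0 : Matrix (Fin a) (Fin a) ℂ) (Z1 : Matrix (Fin b) (Fin b) ℂ),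
        (bsc Q' P').submatrix id (swp a b) * bsm Z0 Z1 * ((bsc Q P).submatrix id (swp a b))⁻¹ =
          bsc (Q' * Z1 * Q⁻¹) (P' * Z0 * P⁻¹))

/-- TRI (construction of the data).

Proof. `F0(s, u) = det (Gm κ0 u (cw q1 g s) (cw q1 y s))` on `US q1 ...`, etc. (StFmp).  Choose `v00` good at `s = 0` and `v01` good at `s = δ2` (window `q1`), `v10` good at `-δ1` and
`v11` good at `0` (window `q2`).  StPth on `[0, δ2]` and `[-δ1, 0]` gives `u0` (equal to `v00` for `s ≤ τ0`, to `v01` for `s ≥ δ2 - τ0`) and `u1` (equal to `v10` for `s ≤ -δ1 + τ1`, to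
`v11` for `s ≥ -τ1`).  `w+ = bsm v00 v10`, `w- = (bsc v11 v01).submatrix id (swp q1 q2)`: both are good at `s = 0` for the window `q1 + q2` by StBlk, StBlc, StBsm
(`q1 θ = -δ1`, `q2 θ = δ2` mod 1).  StPta at `s0 = 0` with `u0 := w-`, `u1 := w+` gives `ε0`; take `ε ≤ ε0, τ0, τ1` with `4ε < δ1, δ2`, and `u2`. -/
def StTri : Prop :=
  StPth → StPta → StPcn → StFmp → StBlk → StBlc → StBsm → ∀ (θ δ1 δ2 : ℝ) (q1 q2 : ℕ), Rot θ δ1 δ2 q1 q2 →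
    ∀ (g y : FS X0) (N N' : ℕ), Deg g N → Deg y N' → ∀ (κ0 : Fin q1 → Fin 4) (κ1 : Fin q2 → Fin 4) (σ0 : Equiv.Perm (Fin q1))
      (σ1 : Equiv.Perm (Fin q2)), IV q1 κ0 σ0 → IV q2 κ1 σ1 →
    (∀ s, ∃ u ∈ US q1 (SB q1 N) (SB q1 N') κ0, IsUnit (Gm κ0 u (cw θ q1 g s) (cw θ q1 y s))) →
    (∀ s, ∃ u ∈ US q2 (SB q2 N) (SB q2 N') κ1, IsUnit (Gm κ1 u (cw θ q2 g s) (cw θ q2 y s))) →
    ∃ (ε : ℝ) (u0 : ℝ → Matrix (Fin q1) (Fin q1) ℂ) (u1 : ℝ → Matrix (Fin q2) (Fin q2) ℂ)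
      (u2 : ℝ → Matrix (Fin (q1 + q2)) (Fin (q1 + q2)) ℂ), 0 < ε ∧ 4 * ε < δ1 ∧ 4 * ε < δ2 ∧
      Dat θ δ1 δ2 ε q1 q2 N N' g y κ0 κ1 σ0 σ1 u0 u1 u2

/-- PRT (the derived matrices are admissible).

Proof. Let `G_k = GG θ g y κ_k u_k`.  For `P_k = G_k` or `u_k` put `M0 s = P_0 Z0 G_0⁻¹` at the point of `[0, δ2]` nearest to `s`, `M1` the same with `[-δ1, 0]`, `M2 s = P_2 (bsm Z0 Z1) G_2⁻¹` at the
point of `[-ε, ε]` nearest to `s`: continuous (the inverse of an invertible continuous matrix is continuous).  For `s ∈ [ε/2, ε]`: `u2 s = bsm (u0 s) (u1 (s - δ1))` and by StBlk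
(`q1 θ = -δ1` mod 1, so `cw θ q2 g (s + q1 θ) = cw θ q2 g (s - δ1)`) `G_2 s = bsm (G_0 s) (G_1 (s - δ1))`; StBsm gives `mp`.  For `s ∈ [-ε, -ε/2]`: `mm` and StBlc (`q2 θ = δ2` mod 1) give
`G_2 s = (bsc (G_1 s) (G_0 (s + δ2))).submatrix id swp`; StBsm gives `mm`. -/
def StPrt : Prop :=
  StBlk → StBlc → StBsm → ∀ (θ δ1 δ2 ε : ℝ) (q1 q2 N N' : ℕ) (g y : FS X0) (κ0 : Fin q1 → Fin 4) (κ1 : Fin q2 → Fin 4)
    (σ0 : Equiv.Perm (Fin q1)) (σ1 : Equiv.Perm (Fin q2)) (u0 : ℝ → Matrix (Fin q1) (Fin q1) ℂ)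
    (u1 : ℝ → Matrix (Fin q2) (Fin q2) ℂ) (u2 : ℝ → Matrix (Fin (q1 + q2)) (Fin (q1 + q2)) ℂ), Rot θ δ1 δ2 q1 q2 →
    0 < ε → 4 * ε < δ1 → 4 * ε < δ2 → Deg g N → Deg y N' → Dat θ δ1 δ2 ε q1 q2 N N' g y κ0 κ1 σ0 σ1 u0 u1 u2 →
    ∀ (Z0 : Matrix (Fin q1) (Fin q1) ℂ) (Z1 : Matrix (Fin q2) (Fin q2) ℂ),
    (∃ (M0 : ℝ → Matrix (Fin q1) (Fin q1) ℂ) (M1 : ℝ → Matrix (Fin q2) (Fin q2) ℂ)
      (M2 : ℝ → Matrix (Fin (q1 + q2)) (Fin (q1 + q2)) ℂ), Adm q1 q2 δ1 δ2 ε M0 M1 M2 ∧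
      (∀ s, 0 ≤ s → s ≤ δ2 → M0 s = tri (GG θ g y κ0 u0) (GG θ g y κ0 u0) Z0 s) ∧
      (∀ s, -δ1 ≤ s → s ≤ 0 → M1 s = tri (GG θ g y κ1 u1) (GG θ g y κ1 u1) Z1 s) ∧
      ∀ s, -ε ≤ s → s ≤ ε → M2 s = tri (GG θ g y (Fin.append κ0 κ1) u2) (GG θ g y (Fin.append κ0 κ1) u2) (bsm Z0 Z1) s) ∧
    (∃ (M0 : ℝ → Matrix (Fin q1) (Fin q1) ℂ) (M1 : ℝ → Matrix (Fin q2) (Fin q2) ℂ)
      (M2 : ℝ → Matrix (Fin (q1 + q2)) (Fin (q1 + q2)) ℂ), Adm q1 q2 δ1 δ2 ε M0 M1 M2 ∧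
      (∀ s, 0 ≤ s → s ≤ δ2 → M0 s = tri u0 (GG θ g y κ0 u0) Z0 s) ∧
      (∀ s, -δ1 ≤ s → s ≤ 0 → M1 s = tri u1 (GG θ g y κ1 u1) Z1 s) ∧
      ∀ s, -ε ≤ s → s ≤ ε → M2 s = tri u2 (GG θ g y (Fin.append κ0 κ1) u2) (bsm Z0 Z1) s)

/-- WMT (the matrices `dg`, `wm`).

Proof. `σ` is an involution exchanging the types 2 and 3.  For `bsm`: entries; `σ` on `Fin (a + b)` is not needed (only `bsm (wm κ0 σ0) (wm κ1 σ1)` is used). -/
def StWmt : Prop :=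
  (∀ (r : ℕ) (κ : Fin r → Fin 4) (σ : Equiv.Perm (Fin r)), IV r κ σ →
    dg κ 2 * wm κ σ = wm κ σ ∧ wm κ σ * dg κ 3 = wm κ σ ∧ dg κ 3 * (wm κ σ).transpose = (wm κ σ).transpose ∧
    (wm κ σ).transpose * dg κ 2 = (wm κ σ).transpose ∧ (wm κ σ).transpose * wm κ σ = dg κ 3 ∧
    wm κ σ * (wm κ σ).transpose = dg κ 2) ∧
  (∀ (r : ℕ) (κ : Fin r → Fin 4), dg κ 0 + dg κ 1 + dg κ 2 + dg κ 3 = 1 ∧ ∀ t t' : Fin 4, dg κ t * dg κ t' = if t = t' then dg κ t else 0) ∧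
  ∀ (a b : ℕ) (κ0 : Fin a → Fin 4) (κ1 : Fin b → Fin 4) (t : Fin 4), bsm (dg κ0 t) (dg κ1 t) = dg (Fin.append κ0 κ1) t

/-- REL (relations in the discrete algebra).

Proof. `L Z0 Z1` and `Lu Z0 Z1` are defined by the displayed formulas.  `L 1 1`, sums, products: StBbm, where only the values on the bases matter (last part of StBbm); there
`rp δ1 x ∈ bs ... v`, all `G_k` are invertible (`g0, g1, g2`; the bases are in the intervals), `bsm` is multiplicative and additive (StBsm), and `G Z G⁻¹ G Z' G⁻¹ = G Z Z' G⁻¹`.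
Action: `cm (hD (rot θ)) r (embF g)` at `x` is `cw θ r g (rp δ1 x)` (StEmb, `rot_zpow`; `(rp δ1 x : X0) = x`).  For `t = 0`: the rows in `SB · N` of `u (dg κ 0) G⁻¹` vanish (`u ∈ US`), so by StBba
`ev (embF g) * Lu (dg κ0 0) (dg κ1 0) = ev (be (c u dg0 G⁻¹))` and `c u dg0 = G dg0` (definition of `Gm`).  For `t = 1` use also `(1 - c) u dg1 = G dg1`; for `t = 2`: the rows in
`SB · N'` of `u (dg κ 2) G⁻¹` vanish, `η u dg2 = G dg2`, StBba for `embF y`.  (For the third tower `bsm (dg κ0 t) (dg κ1 t) = dg (Fin.append κ0 κ1) t` by StWmt.) -/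
def StRel : Prop :=
  StEvm → StBbm → StBba → StEmb → StBsm → StWmt → ∀ (θ δ1 δ2 ε : ℝ) (q1 q2 N N' : ℕ) (g y : FS X0) (κ0 : Fin q1 → Fin 4)
    (κ1 : Fin q2 → Fin 4) (σ0 : Equiv.Perm (Fin q1)) (σ1 : Equiv.Perm (Fin q2)) (u0 : ℝ → Matrix (Fin q1) (Fin q1) ℂ)
    (u1 : ℝ → Matrix (Fin q2) (Fin q2) ℂ) (u2 : ℝ → Matrix (Fin (q1 + q2)) (Fin (q1 + q2)) ℂ), Rot θ δ1 δ2 q1 q2 →
    0 < ε → 4 * ε < δ1 → 4 * ε < δ2 → Deg g N → Deg y N' → Dat θ δ1 δ2 ε q1 q2 N N' g y κ0 κ1 σ0 σ1 u0 u1 u2 →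
    Tow (hD (rot θ)) 3 (Yb δ1 δ2 ε) (rb q1 q2) →
    ∀ (A : Type) [Ring A] [Algebra ℂ A] (j : C(Dx X0, ℂ) →ₐ[ℂ] A) (U : Aˣ), Cov (hD (rot θ)) j U →
    ∃ L Lu : Matrix (Fin q1) (Fin q1) ℂ → Matrix (Fin q2) (Fin q2) ℂ → A,
      (∀ Z0 Z1, L Z0 Z1 = ev j U (be θ δ1 δ2 ε (tri (GG θ g y κ0 u0) (GG θ g y κ0 u0) Z0)
        (tri (GG θ g y κ1 u1) (GG θ g y κ1 u1) Z1)
        (tri (GG θ g y (Fin.append κ0 κ1) u2) (GG θ g y (Fin.append κ0 κ1) u2) (bsm Z0 Z1)))) ∧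
      (∀ Z0 Z1, Lu Z0 Z1 = ev j U (be θ δ1 δ2 ε (tri u0 (GG θ g y κ0 u0) Z0) (tri u1 (GG θ g y κ1 u1) Z1)
        (tri u2 (GG θ g y (Fin.append κ0 κ1) u2) (bsm Z0 Z1)))) ∧
      L 1 1 = 1 ∧ (∀ Z0 Z1 Z0' Z1', L (Z0 + Z0') (Z1 + Z1') = L Z0 Z1 + L Z0' Z1') ∧
      (∀ Z0 Z1 Z0' Z1', L (Z0 * Z0') (Z1 * Z1') = L Z0 Z1 * L Z0' Z1') ∧
      ev j U (embF g) * Lu (dg κ0 0) (dg κ1 0) = L (dg κ0 0) (dg κ1 0) ∧
      (1 - ev j U (embF g)) * Lu (dg κ0 1) (dg κ1 1) = L (dg κ0 1) (dg κ1 1) ∧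
      ev j U (embF y) * Lu (dg κ0 2) (dg κ1 2) = L (dg κ0 2) (dg κ1 2)

/-- ASR (assembly).

Proof. Let `A`, `A_D` be the algebras of StAlg for `(X0, rot θ)` and `(Dx X0, hD (rot θ))`.  For `a : FS X0` let `[a] = ev_D (embF a) ∈ A_D`; `[·]` is injective, additive, `[un] = 1`,
`[tw a b] = [a] [b]` (StEmb, StEvm, StAlg).  By StPrt and StAdm every `L Z0 Z1` and `Lu Z0 Z1` of StRel is of the form `[a]` (the values of the families on the bases agree, last part of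
StBbm; `be` is a `BB`).  Let `p, q, f, r, φ, φ', a, b, c0` be elements of `FS X0` with `[p] = L (dg 0)`, `[q] = L (dg 1)`, `[f] = L (dg 2)`, `[r] = L (dg 3)`, `[φ] = L (wm)`, `[φ'] = L (wmᵀ)`,
`[a] = Lu (dg 0)`, `[b] = Lu (dg 1)`, `[c0] = Lu (dg 2)` (with `κ0, κ1`, `σ0, σ1`).  By StWmt and StRel the relations of StAbs hold in `A_D`, hence in the ring `A` for the elements `ev p`, ... :
`p = g a`, `q = (un - g) b`, `f = y c0 = g ((un - g) s0 c0) = (un - g) (g s0 c0)` (`y = yy θ g s0`; `g` and `un - g` commute).  StAbs in `A` gives `Suit (ev g)`; `ev` is bijective on `A`. -/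
def StAsr : Prop :=
  StEvm → StAlg → StEmb → StBbm → StAbs → StAdm → StPrt → StRel → StBlk → StBlc → StBsm → StWmt → StBba →
    ∀ (θ δ1 δ2 ε : ℝ) (q1 q2 N N' : ℕ) (g s0 : FS X0) (κ0 : Fin q1 → Fin 4)
    (κ1 : Fin q2 → Fin 4) (σ0 : Equiv.Perm (Fin q1)) (σ1 : Equiv.Perm (Fin q2)) (u0 : ℝ → Matrix (Fin q1) (Fin q1) ℂ)
    (u1 : ℝ → Matrix (Fin q2) (Fin q2) ℂ) (u2 : ℝ → Matrix (Fin (q1 + q2)) (Fin (q1 + q2)) ℂ), Rot θ δ1 δ2 q1 q2 →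
    0 < ε → 4 * ε < δ1 → 4 * ε < δ2 → Deg g N → Deg (yy θ g s0) N' →
    Dat θ δ1 δ2 ε q1 q2 N N' g (yy θ g s0) κ0 κ1 σ0 σ1 u0 u1 u2 → Tow (hD (rot θ)) 3 (Yb δ1 δ2 ε) (rb q1 q2) →
    ∃ y z : FS X0, tw (rot θ) (tw (rot θ) g y) (tw (rot θ) g y) = tw (rot θ) g y ∧
      un - tw (rot θ) g y = tw (rot θ) (un - g) z

/-! ### the flexible element and the unit circle -/

/-- FLR (flexible element).

Proof. `w = tw g (un - g) ≠ 0`: `w_(n0)(t1) ≠ 0` for some `n0`, `t1`.  `M` := a bound of the `|m|` with `w_(m+n0) ≠ 0`.  Choose `η > 0` such that `w_(n0) ≠ 0` on the closed ball `B` of radius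
`2η` at `t1`, and the ball of radius `η` at `t1` is disjoint from its translates by `mθ`, `0 < |m| ≤ M` (`mθ ≠ 0` in `X0`).  `V` = open ball of radius `η`; `ψ = max 0 (min 1 (2 - dist(·, t1)/η))`,
`F = ψ conj(w_(n0)) / max (|w_(n0)|²) (c²)`, `c = min_B |w_(n0)| > 0`: continuous, `F = 1/w_(n0)` on `V`, `F = 0` outside `B`.  `s0 = single (-n0) (cmp (rot θ) n0 F)`; `(tw w s0)_m = w_(m+n0) (F ∘ rot^(-m))`.
On `V` this is `1` for `m = 0`.  If `m ≠ 0`, `x ∈ V`, `x - mθ ∈ V` then `|m| > M`, so `w_(m+n0) = 0`. -/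
def StFlr : Prop :=
  ∀ θ : ℝ, Irrational θ → ∀ g : FS X0, tw (rot θ) g (un - g) ≠ 0 → ∃ (s0 : FS X0) (V : Set X0), Flx θ g s0 V

/-- CNJ (conjugacy).

Proof. `T : FS X → FS Y`, `(T g)_n = g_n ∘ φ⁻¹` is a bijection, additive, `T un = un`, `T (tw h a b) = tw h' (T a) (T b)`, because `h'^n = φ h^n φ⁻¹` for `h' = (φ.symm.trans h).trans φ`. -/
def StCnj : Prop :=
  ∀ (X Y : Type) [TopologicalSpace X] [TopologicalSpace Y] (φ : X ≃ₜ Y) (h : X ≃ₜ X),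
    (∀ g : FS X, ∃ y z : FS X, tw h (tw h g y) (tw h g y) = tw h g y ∧ un - tw h g y = tw h (un - g) z) →
    ∀ g : FS Y, ∃ y z : FS Y, tw ((φ.symm.trans h).trans φ) (tw ((φ.symm.trans h).trans φ) g y)
        (tw ((φ.symm.trans h).trans φ) g y) = tw ((φ.symm.trans h).trans φ) g y ∧
      un - tw ((φ.symm.trans h).trans φ) g y = tw ((φ.symm.trans h).trans φ) (un - g) z

/-- CIR (the unit circle).

Proof. `AddCircle.homeomorphCircle one_ne_zero : AddCircle 1 ≃ₜ Circle`, `x ↦ exp (2πi x)`. -/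
def StCir : Prop :=
  ∃ φ : X0 ≃ₜ Circle, ∀ θ : ℝ, (φ.symm.trans (rot θ)).trans φ = Homeomorph.mulLeft (Circle.exp (2 * Real.pi * θ))

end Pool.Agent.Helper49.KR
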